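import Pool.Agent.H798.BV.Stm5

/-!
# BV LB: lower bound of the local integral, exponential case

The structure (and the lemma `norm_prod_le`) follow `H764/BV/Ed.lean` and `H971/BV/Ec.lean`.
-/

set_option autoImplicit false

open MeasureTheory Set

namespace Pool.Agent.H801.BV

open Pool.Agent.H798.BV

theorem norm_prod_le {K : ℕ} (l : Fin K → ℂ) (B : Finset (Fin K)) {t : ℝ} (ht : 0 ≤ t) :
    ‖∏ k ∈ B, (1 - (t : ℂ) * l k)‖ ≤ Real.exp (t * ∑ k ∈ B, ‖l k‖) := by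
  rw [norm_prod, Finset.mul_sum, Real.exp_sum]
  refine Finset.prod_le_prod (fun k _ => norm_nonneg _) fun k _ => ?_
  have h1 : ‖1 - (t : ℂ) * l k‖ ≤ 1 + t * ‖l k‖ := by
    refine (norm_sub_le _ _).trans ?_
    rw [norm_one, norm_mul, Complex.norm_real, Real.norm_of_nonneg ht]
  have h2 := Real.add_one_le_exp (t * ‖l k‖)
  linarith

theorem int_sq_exp_le (c ρ : ℝ) (hc : 0 < c) (hρ : 0 ≤ ρ) :
    ∫ t in (0:ℝ)..ρ, t ^ 2 * Real.exp (-(c * t)) ≤ 2 / c ^ 3 := by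
  have hd : ∀ t ∈ Set.uIcc (0:ℝ) ρ,
      HasDerivAt (fun t : ℝ => -(t ^ 2 / c + 2 * t / c ^ 2 + 2 / c ^ 3) * Real.exp (-(c * t)))
        (t ^ 2 * Real.exp (-(c * t))) t := by
    intro t _
    have h1 : HasDerivAt (fun t : ℝ => -(c * t)) (-(c * 1)) t :=
      ((hasDerivAt_id t).const_mul c).neg
    have h2 : HasDerivAt (fun t : ℝ => -(t ^ 2 / c + 2 * t / c ^ 2 + 2 / c ^ 3))
        (-(2 * t / c + 2 / c ^ 2)) t := by
      have h3 : HasDerivAt (fun t : ℝ => t ^ 2 / c) (2 * t / c) t := by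
        have h4 := (hasDerivAt_pow 2 t).div_const c
        simpa using h4
      have h5 : HasDerivAt (fun t : ℝ => 2 * t / c ^ 2) (2 / c ^ 2) t := by
        have h6 := ((hasDerivAt_id t).const_mul 2).div_const (c ^ 2)
        simpa using h6
      have h7 := ((h3.add h5).add_const (2 / c ^ 3)).neg
      exact h7
    have h8 := h2.mul h1.exp
    have h9 : -(2 * t / c + 2 / c ^ 2) * Real.exp (-(c * t)) +
        -(t ^ 2 / c + 2 * t / c ^ 2 + 2 / c ^ 3) * (Real.exp (-(c * t)) * -(c * 1)) =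
        t ^ 2 * Real.exp (-(c * t)) := by
      have : c ≠ 0 := hc.ne'
      field_simp
      ring
    rw [h9] at h8
    exact h8
  rw [intervalIntegral.integral_eq_sub_of_hasDerivAt hd
    (Continuous.intervalIntegrable (by fun_prop) _ _)]
  have h3 : 0 ≤ (ρ ^ 2 / c + 2 * ρ / c ^ 2 + 2 / c ^ 3) * Real.exp (-(c * ρ)) := by positivity
  simp only [mul_zero, neg_zero, Real.exp_zero, mul_one]
  have h4 : (0:ℝ) ^ 2 / c + 0 / c ^ 2 + 2 / c ^ 3 = 2 / c ^ 3 := by simp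
  rw [h4]
  linarith

theorem t_LB (h : S_AI2) : S_LB := by
  intro m l L κ ρ hm hL hκ hκ1 hρ hs1 hre hβ hpt
  obtain ⟨s, hsd⟩ : ∃ s : ℂ, s = sR L l := ⟨_, rfl⟩
  rw [← hsd] at hs1 hre hβ hpt ⊢
  obtain ⟨B, hB⟩ : ∃ B : Finset (Fin m), B = Finset.univ.filter (fun k => L < ‖l k‖) := ⟨_, rfl⟩
  obtain ⟨A, hA⟩ : ∃ A : Finset (Fin m), A = Finset.univ.filter (fun k => ¬ L < ‖l k‖) := ⟨_, rfl⟩
  rw [← hA] at hpt
  have hmR : (0:ℝ) < m := by exact_mod_cast (by omega : 0 < m)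
  have hmC : (m:ℂ) ≠ 0 := by exact_mod_cast (by omega : m ≠ 0)
  obtain ⟨β, hβd⟩ : ∃ β : ℝ, β = bB L l := ⟨_, rfl⟩
  rw [← hβd] at hβ
  have hβe : ∑ k ∈ B, ‖l k / m‖ = β := by
    rw [hβd, bB, ← hB, Finset.sum_div]
    refine Finset.sum_congr rfl fun k _ => ?_
    rw [norm_div, Complex.norm_natCast]
  have hβ0 : 0 ≤ β := by
    rw [← hβe]
    exact Finset.sum_nonneg fun k _ => norm_nonneg _
  have hn : s.re ≤ ‖s‖ := Complex.re_le_norm s
  have hnpos : 0 < ‖s‖ := hre.trans_le hn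
  have hβn : β ≤ κ * ‖s‖ := hβ.trans (mul_le_mul_of_nonneg_left hn hκ)
  obtain ⟨ν, hν⟩ : ∃ ν : ℝ, ν = (1 - κ) / 2 * s.re := ⟨_, rfl⟩
  rw [← hν]
  have hν0 : 0 < ν := by
    rw [hν]
    exact mul_pos (by linarith) hre
  obtain ⟨hint, hlow⟩ := h m (fun k => l k / m) B s hre (by
    rw [hβe]
    nlinarith)
  rw [hβe] at hlow
  obtain ⟨f, hf⟩ : ∃ f : ℝ → ℂ, f = fun t : ℝ =>
    (∏ k ∈ B, (1 - (t : ℂ) * (l k / m))) * Complex.exp (-((t : ℂ) * s)) := ⟨_, rfl⟩
  rw [← hf] at hint hlow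
  have hcf : Continuous f := by
    rw [hf]
    fun_prop
  -- the lower bound of the whole integral
  have h1 : (1 - κ) / ‖s‖ ≤ ‖∫ t in Ioi (0:ℝ), f t‖ := by
    refine le_trans ?_ hlow
    rw [div_le_div_iff₀ hnpos (by positivity)]
    nlinarith [mul_nonneg hnpos.le hnpos.le]
  -- the tail
  have hbound : ∀ t : ℝ, 0 ≤ t → ‖f t‖ ≤ Real.exp (-ν * t) := by
    intro t ht
    rw [hf]
    simp only
    rw [norm_mul, Complex.norm_exp]
    have h2 := norm_prod_le (fun k => l k / m) B ht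
    rw [hβe] at h2
    have h3 : (-((t : ℂ) * s)).re = -(t * s.re) := by
      simp
    rw [h3]
    calc ‖∏ k ∈ B, (1 - (t : ℂ) * (l k / m))‖ * Real.exp (-(t * s.re))
        ≤ Real.exp (t * β) * Real.exp (-(t * s.re)) :=
          mul_le_mul_of_nonneg_right h2 (Real.exp_pos _).le
      _ = Real.exp (t * (β - s.re)) := by
          rw [← Real.exp_add]
          congr 1
          ring
      _ ≤ Real.exp (-ν * t) := by
          refine Real.exp_le_exp.2 ?_
          have h4 : β - s.re ≤ -ν := by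
            rw [hν]
            nlinarith
          nlinarith
  have hneg : -ν < 0 := by linarith
  obtain ⟨T, hT⟩ : ∃ T : ℝ, T = m * ρ := ⟨_, rfl⟩
  have hT0 : 0 ≤ T := by
    rw [hT]
    positivity
  have htail : ‖∫ t in Ioi T, f t‖ ≤ 1 / ν * Real.exp (-(m * ρ * ν)) := by
    have h2 : ‖∫ t in Ioi T, f t‖ ≤ ∫ t in Ioi T, Real.exp (-ν * t) := by
      refine norm_integral_le_of_norm_le (integrableOn_exp_mul_Ioi hneg T) ?_
      filter_upwards [ae_restrict_mem measurableSet_Ioi] with t ht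
      exact hbound t (hT0.trans (le_of_lt ht))
    refine h2.trans (le_of_eq ?_)
    rw [integral_exp_mul_Ioi hneg T]
    have h3 : -ν * T = -(m * ρ * ν) := by rw [hT]; ring
    rw [h3]
    field_simp
  have hadd : (∫ t in (0:ℝ)..T, f t) + ∫ t in Ioi T, f t = ∫ t in Ioi (0:ℝ), f t :=
    intervalIntegral.integral_interval_add_Ioi hint
      (hint.mono_set (Ioi_subset_Ioi hT0))
  have h4 : ‖∫ t in Ioi (0:ℝ), f t‖ ≤ ‖∫ t in (0:ℝ)..T, f t‖ + ‖∫ t in Ioi T, f t‖ := by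
    rw [← hadd]
    exact norm_add_le _ _
  -- substitution
  have hsub : (m:ℝ) • ∫ τ in (0:ℝ)..ρ, f (m * τ) = ∫ t in (0:ℝ)..T, f t := by
    rw [intervalIntegral.smul_integral_comp_mul_left, mul_zero, ← hT]
  -- the difference
  have hcF : Continuous fun τ : ℝ => ∏ k, (1 - (τ : ℂ) * l k) := by fun_prop
  have hcG : Continuous fun τ : ℝ => f (m * τ) := hcf.comp (by fun_prop)
  have hdiff : ‖(∫ τ in (0:ℝ)..ρ, ∏ k, (1 - (τ : ℂ) * l k)) - ∫ τ in (0:ℝ)..ρ, f (m * τ)‖ ≤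
      m * L * (2 / (m * ν) ^ 3) := by
    rw [← intervalIntegral.integral_sub (hcF.intervalIntegrable _ _) (hcG.intervalIntegrable _ _)]
    have hp : ∀ τ ∈ Set.Ioc (0:ℝ) ρ,
        ‖(∏ k, (1 - (τ : ℂ) * l k)) - f (m * τ)‖ ≤
          m * L * (τ ^ 2 * Real.exp (-(m * ν * τ))) := by
      intro τ hτ
      have ht0 : 0 ≤ τ := hτ.1.le
      have e0 : f (m * τ) = (∏ k ∈ B, (1 - (τ : ℂ) * l k)) *
          Complex.exp (-((m * τ : ℝ) * s)) := by
        rw [hf]
        simp only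
        congr 1
        refine Finset.prod_congr rfl fun k _ => ?_
        push_cast
        field_simp
      have e2 : ∏ k, (1 - (τ : ℂ) * l k) =
          (∏ k ∈ B, (1 - (τ : ℂ) * l k)) * ∏ k ∈ A, (1 - (τ : ℂ) * l k) := by
        rw [hB, hA]
        exact (Finset.prod_filter_mul_prod_filter_not _ _ _).symm
      rw [e0, e2, ← mul_sub, norm_mul]
      have b1 := norm_prod_le l B ht0
      have b3 : τ * ∑ k ∈ B, ‖l k‖ = m * τ * β := by
        rw [hβd, bB, ← hB]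
        field_simp
      rw [b3] at b1
      have b2 := hpt τ ht0 hτ.2
      calc _ ≤ Real.exp (m * τ * β) *
            (m * τ ^ 2 * L * Real.exp (-(m * τ * ((1 + κ) / 2 * s.re)))) :=
            mul_le_mul b1 b2 (norm_nonneg _) (Real.exp_pos _).le
        _ = m * L * (τ ^ 2 * Real.exp (m * τ * β + -(m * τ * ((1 + κ) / 2 * s.re)))) := by
            rw [Real.exp_add]; ring
        _ ≤ m * L * (τ ^ 2 * Real.exp (-(m * ν * τ))) := by
            refine mul_le_mul_of_nonneg_left (mul_le_mul_of_nonneg_left (Real.exp_le_exp.2 ?_)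
              (by positivity)) (by positivity)
            have hmt : 0 ≤ m * τ := by positivity
            have b4 := mul_le_mul_of_nonneg_left hβ hmt
            rw [hν]
            nlinarith
    refine (intervalIntegral.norm_integral_le_of_norm_le hρ.le (Filter.Eventually.of_forall hp)
      (Continuous.intervalIntegrable (by fun_prop) _ _)).trans ?_
    rw [intervalIntegral.integral_const_mul]
    exact mul_le_mul_of_nonneg_left (int_sq_exp_le (m * ν) ρ (by positivity) hρ.le)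
      (by positivity)
  have h5 : ‖∫ t in (0:ℝ)..T, f t‖ = m * ‖∫ τ in (0:ℝ)..ρ, f (m * τ)‖ := by
    rw [← hsub, norm_smul, Real.norm_of_nonneg hmR.le]
  have h6 : ‖∫ τ in (0:ℝ)..ρ, f (m * τ)‖ ≤
      ‖∫ τ in (0:ℝ)..ρ, ∏ k, (1 - (τ : ℂ) * l k)‖ + m * L * (2 / (m * ν) ^ 3) := by
    have h7 := norm_sub_norm_le (∫ τ in (0:ℝ)..ρ, f (m * τ))
      (∫ τ in (0:ℝ)..ρ, ∏ k, (1 - (τ : ℂ) * l k))
    rw [norm_sub_rev] at h7
    linarith
  have h8 := mul_le_mul_of_nonneg_left h6 hmR.le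
  have h9 : (m:ℝ) * (m * L * (2 / (m * ν) ^ 3)) = 2 * L / (m * ν ^ 3) := by
    field_simp
  rw [mul_add, h9] at h8
  linarith

end Pool.Agent.H801.BV
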